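import Mathlib

open Set Filter Topology Complex Metric Real Asymptotics
open scoped ComplexConjugate

namespace Pool.Agent.H.MP_eccde5_an

lemma strict {E F : Type*} [NormedAddCommGroup E] [NormedSpace ℂ E] [NormedAddCommGroup F]
    [NormedSpace ℂ F] {f : E → F} {c : E} {U : Set E} (hU : IsOpen U) (hc : c ∈ U)
    (hd : DifferentiableOn ℂ f U) : HasStrictFDerivAt f (fderiv ℂ f c) c := by
  have d : ∀ z ∈ U, HasFDerivAt f (fderiv ℂ f z) z := fun z hz =>
    (hd.differentiableAt (hU.mem_nhds hz)).hasFDerivAt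
  refine hasStrictFDerivAt_of_hasFDerivAt_of_continuousAt (f' := fderiv ℂ f)
    (mem_of_superset (hU.mem_nhds hc) d) (Metric.tendsto_nhds.2 fun e he => ?_)
  obtain ⟨r, r0, hr⟩ := Metric.mem_nhds_iff.1 (inter_mem (hU.mem_nhds hc)
    ((d c hc).isLittleO.bound (c := e / 5) (by linarith)))
  filter_upwards [ball_mem_nhds c (half_pos r0)] with z hz
  have sub : ball z (r / 2) ⊆ ball c r := ball_subset_ball' (by linarith [mem_ball.1 hz])
  have b : ∀ w ∈ ball c r, ‖f w - f c - fderiv ℂ f c (w - c)‖ ≤ e / 5 * r := fun w hw =>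
    (hr hw).2.trans (by gcongr; exact (mem_ball_iff_norm.1 hw).le)
  have z0 := sub (mem_ball_self (half_pos r0))
  have := norm_fderiv_le_div_of_mapsTo_ball (f := fun w => f w - fderiv ℂ f c w) (c := z)
    (R₂ := e / 5 * r + e / 5 * r) ((hd.mono fun w hw => (hr (sub hw)).1).sub
      (fderiv ℂ f c).differentiableOn) (fun w hw => by
      rw [mem_closedBall_iff_norm]
      refine le_of_eq_of_le ?_ (norm_sub_le_of_le (b w (sub hw)) (b z z0))
      simp only [map_sub]
      congr 1
      abel) (half_pos r0)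
  rw [((d z (hr z0).1).fun_sub (fderiv ℂ f c).hasFDerivAt).fderiv] at this
  rw [dist_eq_norm]
  refine this.trans_lt ?_
  rw [div_lt_iff₀ (half_pos r0)]
  nlinarith [mul_pos he r0]

abbrev E := EuclideanSpace ℂ (Fin 2)

noncomputable abbrev e (i : Fin 2) : E := EuclideanSpace.single i 1

lemma nsq {i j : Fin 2} (hij : i ≠ j) (z : E) : ‖z‖ ^ 2 = ‖z i‖ ^ 2 + ‖z j‖ ^ 2 := by
  rw [EuclideanSpace.norm_sq_eq, Fin.sum_univ_two]
  fin_cases i <;> fin_cases j <;> simp_all [add_comm]

theorem shear {h : E → E} {i j : Fin 2} (hij : i ≠ j) {k : ℕ} (hk : 2 ≤ k) {α β : ℝ}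
    (hd : DifferentiableOn ℂ h (ball 0 1)) (h0 : h 0 = 0) (hα : fderiv ℂ h 0 (e i) i = α)
    (hβ : fderiv ℂ h 0 (e j) j = β) (hp : ∀ z ∈ ball (0 : E) 1, z ≠ 0 → 0 < (inner ℂ z (h z)).re)
    {a b : ℂ} (hab : ‖a‖ ^ 2 + ‖b‖ ^ 2 < 1) :
    0 ≤ α * ‖a‖ ^ 2 + β * ‖b‖ ^ 2 + (conj a * (b ^ k *
      (iteratedDeriv k (fun w => h (EuclideanSpace.single j w) i) 0 / k.factorial))).re := by
  have sg : ∀ w : ℂ, EuclideanSpace.single j w = w • e j := fun w => by
    ext l; by_cases hl : l = j <;> simp [hl]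
  rw [show (fun w => h (EuclideanSpace.single j w) i) = fun w : ℂ => h (w • e j) i from
    funext fun w => by rw [sg]]
  set P : ℂ → E := fun s => (s ^ k * a) • e i + (b * s) • e j with hP
  set Q : ℂ → E := fun s => (b * s) • e j with hQ
  have b1 : ‖b‖ ≤ 1 := by nlinarith [norm_nonneg b, sq_nonneg ‖a‖]
  have m : ∀ a : ℂ, ‖a‖ ^ 2 + ‖b‖ ^ 2 < 1 → ∀ s ∈ closedBall (0 : ℂ) 1,
      (s ^ k * a) • e i + (b * s) • e j ∈ ball (0 : E) 1 := fun a hab s hs => by
    rw [mem_closedBall_zero_iff] at hs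
    rw [mem_ball_zero_iff, ← sq_lt_one_iff₀ (norm_nonneg _), nsq hij]
    refine lt_of_le_of_lt ?_ hab
    simp only [PiLp.add_apply, PiLp.smul_apply, PiLp.single_apply, hij, hij.symm, if_true, if_false,
      smul_eq_mul, mul_one, mul_zero, add_zero, zero_add, norm_mul, norm_pow]
    gcongr
    · exact mul_le_of_le_one_left (norm_nonneg _) (pow_le_one₀ (norm_nonneg _) hs)
    · exact mul_le_of_le_one_right (norm_nonneg _) hs
  have pr : ∀ l : Fin 2, DifferentiableOn ℂ (fun z => h z l) (ball 0 1) := fun l =>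
    (EuclideanSpace.proj (𝕜 := ℂ) l).differentiable.comp_differentiableOn hd
  have dP : ∀ l, DifferentiableOn ℂ (fun s => h (P s) l) (closedBall 0 1) := fun l =>
    (pr l).comp (by fun_prop) (m a hab)
  have dQ : DifferentiableOn ℂ (fun s => h (Q s) i) (closedBall 0 1) :=
    (pr i).comp (by fun_prop) fun s hs => by
      simpa using m 0 (by simp; nlinarith [sq_nonneg ‖a‖]) s hs
  set f : ℂ → ℂ := fun s => conj a * ((h (P s) i - h (Q s) i) / s ^ k) + conj b * (h (P s) j / s)
    with hf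
  set g : ℂ → ℂ := fun s => conj a * (h (Q s) i / s ^ k) with hg
  have df : DifferentiableOn ℂ f (closedBall 0 1 \ {0}) :=
    (((((dP i).sub dQ).mono sdiff_subset).div (by fun_prop) fun s hs =>
      pow_ne_zero _ hs.2).const_mul _).add
      ((((dP j).mono sdiff_subset).div differentiableOn_id fun s hs => hs.2).const_mul _)
  have cg : ContinuousOn g (sphere 0 1) := continuousOn_const.mul
    ((dQ.continuousOn.mono sphere_subset_closedBall).div (by fun_prop) fun s hs =>
      pow_ne_zero _ (ne_of_mem_sphere hs one_ne_zero))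
  have cf : ContinuousOn f (sphere 0 1) := df.continuousOn.mono fun s hs =>
    ⟨sphere_subset_closedBall hs, ne_of_mem_sphere hs one_ne_zero⟩
  have st := strict isOpen_ball (mem_ball_self one_pos) hd
  have k0 : k ≠ 0 := by omega
  have P0 : P 0 = 0 := by simp [hP, k0]
  have t1 : Tendsto (fun s => (h (P s) i - h (Q s) i) / s ^ k) (𝓝[≠] 0) (𝓝 (α * a)) := by
    have c : Tendsto (fun s => (P s, Q s)) (𝓝 0) (𝓝 (0, 0)) :=
      Continuous.tendsto' (by fun_prop) _ _ (by simp [P0, hQ])
    have o := ((EuclideanSpace.proj (𝕜 := ℂ) i).isBigO_comp _ _).trans_isLittleO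
      (st.isLittleO.comp_tendsto c)
    have o2 : (fun s => P s - Q s) =O[𝓝 0] fun s : ℂ => s ^ k :=
      IsBigO.of_bound ‖a‖ (.of_forall fun s => by simp [hP, hQ, norm_smul, mul_comm])
    have := ((o.trans_isBigO o2).tendsto_div_nhds_zero.add_const (α * a)).mono_left
      (nhdsWithin_le_nhds (s := {0}ᶜ))
    rw [zero_add] at this
    refine this.congr' (eventually_nhdsWithin_of_forall fun s hs => ?_)
    have : s ^ k ≠ 0 := pow_ne_zero _ hs
    have e1 : P s - Q s = (s ^ k * a) • e i := add_sub_cancel_right _ _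
    simp only [Function.comp_apply, e1, map_smul, PiLp.proj_apply, PiLp.sub_apply, PiLp.smul_apply,
      smul_eq_mul, hα]
    field_simp
    ring
  have t2 : Tendsto (fun s => h (P s) j / s) (𝓝[≠] 0) (𝓝 (β * b)) := by
    have d : HasDerivAt P (b • e j) 0 := by
      simpa [k0, show k - 1 ≠ 0 by omega] using (((hasDerivAt_pow k (0 : ℂ)).mul_const a).smul_const
        (e i)).fun_add (((hasDerivAt_id' (0 : ℂ)).const_mul b).smul_const (e j))
    have := ((EuclideanSpace.proj (𝕜 := ℂ) j).hasFDerivAt.comp_hasDerivAt _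
      (st.hasFDerivAt.comp_hasDerivAt_of_eq (0 : ℂ) d P0.symm)).tendsto_slope_zero
    simpa [P0, h0, hβ, div_eq_inv_mul, mul_comm] using this
  have i1 : circleAverage f 0 1 = conj a * (α * a) + conj b * (β * b) := by
    rw [circleAverage_eq_circleIntegral one_ne_zero,
      circleIntegral_sub_center_inv_smul_of_differentiable_on_off_countable_of_tendsto one_pos
        countable_empty df.continuousOn (fun s hs => df.differentiableAt (mem_of_superset
          ((isOpen_ball.sdiff isClosed_singleton).mem_nhds hs.1)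
          (sdiff_subset_sdiff_left ball_subset_closedBall)))
        ((t1.const_mul _).add (t2.const_mul _)), inv_smul_smul₀ two_pi_I_ne_zero]
  have i2 : circleAverage g 0 1 = conj a * (b ^ k *
      (iteratedDeriv k (fun w : ℂ => h (w • e j) i) 0 / k.factorial)) := by
    have := dQ.circleIntegral_one_div_sub_center_pow_smul one_pos k
    have z : (0 : ℂ) ∈ ball 0 1 := mem_ball_self one_pos
    have e2 := iteratedDerivWithin_comp_const_smul z isOpen_ball.uniqueDiffOn (n := k)
      (f := fun w : ℂ => h (w • e j) i) (((pr i).comp (by fun_prop) fun s hs => by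
        simpa [norm_smul] using hs).contDiffOn isOpen_ball) b fun s hs => by
        rw [mem_ball_zero_iff] at hs ⊢
        exact (norm_mul_le _ _).trans_lt ((mul_le_of_le_one_left (norm_nonneg _) b1).trans_lt hs)
    rw [mul_zero, iteratedDerivWithin_of_isOpen isOpen_ball z,
      iteratedDerivWithin_of_isOpen isOpen_ball z] at e2
    rw [e2] at this
    rw [circleAverage_eq_circleIntegral one_ne_zero, circleIntegral.integral_congr zero_le_one
      (g := fun s => conj a * ((1 / (s - 0) ^ (k + 1)) • h (Q s) i)) fun s _ => by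
        simp only [hg, sub_zero, smul_eq_mul]; ring, circleIntegral.integral_const_mul, this]
    simp only [smul_eq_mul]
    field_simp
  have := circleAverage_nonneg_of_nonneg (c := 0) (R := 1) (f := reCLM ∘ (f + g)) fun s hs => by
    rw [abs_one] at hs
    have s0 := ne_of_mem_sphere hs one_ne_zero
    have c : conj s = s⁻¹ := (inv_eq_conj (mem_sphere_zero_iff_norm.1 hs)).symm
    have : (f + g) s = inner ℂ (P s) (h (P s)) := by
      nth_rw 1 [hP]
      simp only [inner_add_left, inner_smul_left, EuclideanSpace.inner_single_left, map_mul,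
        map_pow, c, map_one, hf, hg, Pi.add_apply, inv_pow]
      field_simp
      ring
    simp only [Function.comp_apply, this, reCLM_apply]
    by_cases z : P s = 0
    · simp [z]
    · exact (hp _ (m a hab s (sphere_subset_closedBall hs)) z).le
  rw [reCLM.circleAverage_comp_comm ((cf.add cg).circleIntegrable zero_le_one),
    circleAverage_add (cf.circleIntegrable zero_le_one) (cg.circleIntegrable zero_le_one), i1, i2,
    mul_left_comm, mul_left_comm (conj b), conj_mul', conj_mul'] at this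
  simpa [← ofReal_pow] using this

/-- the sharp constant -/
noncomputable def bound (α β : ℝ) (k : ℕ) : ℝ :=
  let t := 2 * β / (α + k * β + √((α + k * β) ^ 2 + 4 * β * (α - β) * (k - 1)))
  (α * t + β * (1 - t)) / (√t * √(1 - t) ^ k)

lemma minb {α β : ℝ} (hα : 0 < α) (hβ : 0 < β) {k : ℕ} (hk : 2 ≤ k) : 0 < bound α β k ∧
    (∃ x y : ℝ, 0 < x ∧ 0 < y ∧ x ^ 2 + y ^ 2 = 1 ∧
      α * x ^ 2 + β * y ^ 2 = bound α β k * (x * y ^ k)) ∧
    ∀ x y : ℝ, 0 ≤ x → 0 ≤ y → x ^ 2 + y ^ 2 = 1 →
      bound α β k * (x * y ^ k) ≤ α * x ^ 2 + β * y ^ 2 := by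
  have k2 : (2 : ℝ) ≤ k := mod_cast hk
  unfold bound
  set D := (α + k * β) ^ 2 + 4 * β * (α - β) * (k - 1) with hD
  have D0 : 0 ≤ D := by
    nlinarith [sq_nonneg (β * (k - 2)), mul_pos hα hβ, mul_nonneg (mul_pos hα hβ).le (sub_nonneg.2 k2)]
  have s0 := Real.sqrt_nonneg D
  have s2 := Real.sq_sqrt D0
  have p : 2 * β < α + k * β + √D := by nlinarith
  have p0 : 0 < α + k * β + √D := by linarith
  set t := 2 * β / (α + k * β + √D) with ht
  have t0 : 0 < t := by positivity
  have t1 : 0 < 1 - t := sub_pos.2 ((div_lt_one p0).2 p)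
  have q : (α - β) * (k - 1) * t ^ 2 + (α + k * β) * t - β = 0 := by
    rw [ht]; field_simp; linear_combination -β * s2
  have w : ∀ s ∈ Ioo (0 : ℝ) 1, 0 < α * s + β * (1 - s) := fun s hs => by nlinarith [hs.1, hs.2]
  set F : ℝ → ℝ := fun s => Real.log (α * s + β * (1 - s)) -
    (Real.log s / 2 + k * (Real.log (1 - s) / 2)) with hF
  have d : ∀ s ∈ Ioo (0 : ℝ) 1, ∃ c > 0, HasDerivAt F ((s - t) * c) s := fun s hs => by
    have a := hs.1
    have b := sub_pos.2 hs.2
    have c := w s hs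
    refine ⟨((α - β) * (k - 1) * s * t + β) / (2 * s * t * (1 - s) * (α * s + β * (1 - s))),
      div_pos ?_ (by positivity), ?_⟩
    · have : 0 < (α - β) * (k - 1) * t + β := (mul_pos_iff_of_pos_left t1).1 (by
        rw [show (1 - t) * ((α - β) * (k - 1) * t + β) = t * k * α by linear_combination -q]
        positivity)
      nlinarith
    · refine (((((hasDerivAt_id s).const_mul α).add (((hasDerivAt_id s).const_sub 1).const_mul
        β)).log c.ne').sub (((hasDerivAt_log a.ne').div_const 2).add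
        (((((hasDerivAt_id s).const_sub 1).log b.ne').div_const 2).const_mul (k : ℝ)))).congr_deriv ?_
      simp only [id, Pi.add_apply]
      field_simp
      linear_combination s * q
  have mn : ∀ s ∈ Ioo (0 : ℝ) 1, F t ≤ F s := fun s hs => by
    choose! c c0 dc using d
    rcases lt_trichotomy s t with h | rfl | h
    · have m : Icc s t ⊆ Ioo 0 1 := Icc_subset_Ioo hs.1 (by linarith)
      obtain ⟨u, hu, e⟩ := exists_hasDerivAt_eq_slope F _ h
        (fun u hu => (dc u (m hu)).continuousAt.continuousWithinAt)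
        fun u hu => dc u (m (Ioo_subset_Icc_self hu))
      rw [eq_div_iff (sub_pos.2 h).ne'] at e
      nlinarith [mul_pos (mul_pos (sub_pos.2 hu.2) (c0 u (m (Ioo_subset_Icc_self hu)))) (sub_pos.2 h)]
    · rfl
    · have m : Icc t s ⊆ Ioo 0 1 := Icc_subset_Ioo t0 hs.2
      obtain ⟨u, hu, e⟩ := exists_hasDerivAt_eq_slope F _ h
        (fun u hu => (dc u (m hu)).continuousAt.continuousWithinAt)
        fun u hu => dc u (m (Ioo_subset_Icc_self hu))
      rw [eq_div_iff (sub_pos.2 h).ne'] at e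
      nlinarith [mul_pos (mul_pos (sub_pos.2 hu.1) (c0 u (m (Ioo_subset_Icc_self hu)))) (sub_pos.2 h)]
  have lg : ∀ s ∈ Ioo (0 : ℝ) 1, 0 < (α * s + β * (1 - s)) / (√s * √(1 - s) ^ k) ∧
      Real.log ((α * s + β * (1 - s)) / (√s * √(1 - s) ^ k)) = F s := fun s hs => by
    have a := Real.sqrt_pos.2 hs.1
    have b := Real.sqrt_pos.2 (sub_pos.2 hs.2)
    have c := w s hs
    refine ⟨by positivity, ?_⟩
    rw [log_div c.ne' (by positivity), log_mul a.ne' (by positivity), log_pow, log_sqrt hs.1.le,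
      log_sqrt (sub_pos.2 hs.2).le]
  have tm : t ∈ Ioo (0 : ℝ) 1 := ⟨t0, by linarith⟩
  refine ⟨(lg t tm).1, ⟨√t, √(1 - t), by positivity, by positivity, ?_, ?_⟩, fun x y hx hy h => ?_⟩
  · rw [Real.sq_sqrt t0.le, Real.sq_sqrt t1.le]; ring
  · rw [Real.sq_sqrt t0.le, Real.sq_sqrt t1.le, div_mul_cancel₀ _ (by positivity)]
  · rcases hx.eq_or_lt with rfl | hx
    · simp; positivity
    rcases hy.eq_or_lt with rfl | hy
    · simp [show k ≠ 0 by omega]; positivity
    have m : x ^ 2 ∈ Ioo (0 : ℝ) 1 := ⟨by positivity, by nlinarith⟩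
    have := (log_le_log_iff (lg t tm).1 (lg _ m).1).1 (by rw [(lg t tm).2, (lg _ m).2]; exact mn _ m)
    rwa [show 1 - x ^ 2 = y ^ 2 by linarith, sqrt_sq hx.le, sqrt_sq hy.le,
      le_div_iff₀ (by positivity)] at this

end Pool.Agent.H.MP_eccde5_an
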